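import Pool.Agent.LibDV76.Q14
import Pool.Agent.LibDV76.V2

/-!
# MP_29b22a_nt (Beilinson's conjecture): Chow groups of intersections of hypersurfaces `F_1(x_1) + ... + F_m(x_m) = 0`

Let `k` be an algebraically closed field of characteristic `0` and let `X ⊂ ℙ ^ (s - 1)` be the intersection of `c`
hypersurfaces `∑ a, F_(t, a)(x_a) = 0` of the same degree `n ≥ 2`; here the `s` variables are divided into `m` non-empty
groups `x_1, ..., x_m` and `F_(t, a)` is an arbitrary form of degree `n` (or zero) in the variables of the group `a`. For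
`m = s` these are the intersections of `c` diagonal hypersurfaces `∑ l, α_(t, l) x_l ^ n = 0`. `X` may be singular.

The group `μ_n ^ m` acts on `X`. Let `e` be a character which is not trivial. Let the `m` groups be divided into `p` blocks
such that the sum of the exponents of `e` over each block is divisible by `n`, and each group with exponent divisible by
`n` is a block.

* (1) If `p > c + d` then the `e`-part of `CH_d(X)` is zero.
* (2) If `p ≥ c + d` then the `e`-part of `CH_d(X)` is a quotient of `k ⊗ CH_0(S)`. Here `S` is the locus of the points `u`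
  of the product of the projective spaces of the blocks for which the linear forms `∑ a, F_(t, a)(u) Y_(block of a)` in the
  `p` variables `Y` have a kernel of dimension at least `d + 1`. The class `L u` is the `e`-part of the class of the
  subvariety of all points `(u_l y_(block of l))` for which the `n`-th powers of `y` form a vector of a fixed space of
  dimension `d + 1` in this kernel. The classes `L u` generate the `e`-part, do not depend on the choices, and satisfy the
  relations `∑ ord_v(f) L(u(v)) = 0` for functions `f` on curves with a map `u` to `S`.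
* (3) Let `H` be a subgroup of `μ_n ^ m`. If `n (c + d) < m`, or if every character `e` which is trivial on `H` (and on the
  scalars) admits more than `c + d` blocks, then `ℚ ⊗ CH_d(X / H)` is generated by one class: there is a class `E` such
  that every `d`-dimensional subvariety `x` of `X` satisfies `a • ∑ h ∈ H, [h x] = r • E` for integers `a > 0` and `r`.
  In particular (`H = 1`) this holds for `X` if `n (c + d) < m`.

Cycles are combinations of closed subvarieties modulo the divisors of functions (`Cyc`, `cyc`, `IsDiv`, `RatEq`); a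
subvariety is given by a generic point with homogeneous coordinates in a function field `M` over `k`.
-/

namespace Pool.Agent.Results.MP_29b22a_nt.DiagonalIntersections

open Pool.Agent.LibDV76
open Pool.Agent.LibBH2 (Place)
open Pool.Agent.LibCHd (FunF)

/-- See the claim file. -/
theorem result (k : Type) [Field k] [IsAlgClosed k] [CharZero k] (s m c d : ℕ) (D : Dat k s m c) (hD : D.Good) :
    (∀ (p : ℕ) (e : Fin m → ℕ) (b : Fin m → Fin p), Bl D.n e b → (∃ a, ¬ D.n ∣ e a) →
      ∀ (W : Type) (_ : AddCommGroup W) (_ : Module k W) (q : CH D d →+ W),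
      (c + d < p → ∀ (M : Type) (_ : Field M) (_ : Algebra k M) (x : Fin s → M), FunF k d M → On D x →
        mns e q x = 0) ∧
      (c + d ≤ p → ∃ L : (Fin s → k) → W,
        (∀ u, ¬ InS D b (d + 1) u → L u = 0) ∧
        (∀ (u : Fin s → k) (τ : Fin p → k), (∀ C, τ C ≠ 0) → L (fun l => τ (b (D.γ l)) * u l) = L u) ∧
        (∀ (u : Fin s → k) (h : ℕ → Fin p → k), Val D u → KB D b u h (d + 1) → ∀ (M : Type) (_ : Field M)
          (_ : Algebra k M) (η : ℕ → M) (y : Fin p → M), FunF k d M → (∃ j ≤ d, η j ≠ 0) →
          (∀ C, y C ^ D.n = ∑ i ∈ Finset.range (d + 1), η i * algebraMap k M (h i C)) →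
          mns e q (fun l => algebraMap k M (u l) * y (b (D.γ l))) = Module.finrank (rf k d η) M • L u) ∧
        (∀ (M : Type) (_ : Field M) (_ : Algebra k M) (x : Fin s → M), FunF k d M → On D x →
          mns e q x ∈ Submodule.span k (Set.range L)) ∧
        ∀ (K : Type) (_ : Field K) (_ : Algebra k K) (u : Fin s → K) (f : K) (S : Finset (Place k K))
          (V : Place k K → Fin s → k), FunF k 1 K → InS D b (d + 1) u → f ≠ 0 → (∀ v, v.ord f ≠ 0 → v ∈ S) →
          (∀ v ∈ S, (Val D (V v) ∧ SpU D b v u (V v)) ∨ (V v = 0 ∧ ∀ u', Val D u' → ¬ SpU D b v u u')) →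
          ∑ v ∈ S, v.ord f • L (V v) = 0)) ∧
    (∀ H : Finset (Fin m → k), H ⊆ grp k D.n m → (∀ g ∈ H, ∀ h ∈ H, (fun a => g a * h a) ∈ H) →
      (D.n * (c + d) < m ∨ ∀ e : Fin m → ℕ, D.n ∣ ∑ a, e a → (∀ h ∈ H, chi e h = 1) →
        ∃ (p : ℕ) (b : Fin m → Fin p), Bl D.n e b ∧ c + d < p) →
      ∃ E : CH D d, ∀ (M : Type) (_ : Field M) (_ : Algebra k M) (x : Fin s → M), FunF k d M → On D x →
        ∃ (a : ℕ) (r : ℤ), 0 < a ∧ a • ∑ h ∈ H, cls D d (act D h x) = r • E) :=
  ⟨fun _ _ _ hb he _ _ _ q => ⟨fun hp _ _ _ _ hM hx => mns_char hD hb q hp he hM hx, fun hp =>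
    locus hD hb q hp he.choose he.choose_spec⟩, fun H hH hmul hp => chow_sub hD H hH hmul fun e hs hg => by
      rcases hp with hp | hp
      · obtain ⟨p, b, h1, h2⟩ := exists_bl D.n m (c + d) (by have := hD.two; omega) e hs hp
        exact ⟨p, b, h2, h1⟩
      · exact hp e hs hg⟩

end Pool.Agent.Results.MP_29b22a_nt.DiagonalIntersections
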